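import Mathlib

set_option autoImplicit false

open scoped RealInnerProductSpace Topology ContDiff
open MeasureTheory Set

namespace Pool.Agent.Lib.MP_bfe3ea_gt

/-- Euclidean space `ℝⁿ`. -/
abbrev E (n : ℕ) : Type := EuclideanSpace ℝ (Fin n)

/-- `M ⊆ ℝⁿ` is a `C^∞` embedded hypersurface: near each of its points it is the zero set of a
`C^∞` function with nonvanishing derivative. -/
def IsSmoothHypersurface {n : ℕ} (M : Set (E n)) : Prop :=
  ∀ a ∈ M, ∃ U : Set (E n), IsOpen U ∧ a ∈ U ∧ ∃ F : E n → ℝ, ContDiffOn ℝ ∞ F U ∧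
    (∀ x ∈ U, fderiv ℝ F x ≠ 0) ∧ M ∩ U = {x ∈ U | F x = 0}

/-- `v` is the unit normal of `M` at `a` pointing into the side of the tangent hyperplane
`a + v^⊥` which contains `M`, and `M` meets that hyperplane only at `a`
(`tangentConeAt ℝ M a` is the tangent space of `M` at `a`). -/
def IsInnerUnitNormal {n : ℕ} (M : Set (E n)) (a v : E n) : Prop :=
  ‖v‖ = 1 ∧ (∀ w ∈ tangentConeAt ℝ M a, ⟪w, v⟫ = 0) ∧ ∀ x ∈ M, x ≠ a → 0 < ⟪x - a, v⟫

/-- Smooth strictly convex hypersurface: a connected `C^∞` embedded hypersurface which, for each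
of its points `a`, lies on one side of the tangent hyperplane at `a` and meets it only at `a`. -/
def IsStrictlyConvexHypersurface {n : ℕ} (M : Set (E n)) : Prop :=
  IsConnected M ∧ IsSmoothHypersurface M ∧ ∀ a ∈ M, ∃ v, IsInnerUnitNormal M a v

/-- The region enclosed by `S`: the union of the bounded connected components of its
complement. -/
def enclosed {k : ℕ} (S : Set (E k)) : Set (E k) :=
  {y | y ∉ S ∧ Bornology.IsBounded (connectedComponentIn Sᶜ y)}

/-- The part at distance less than `r` from `a` of the intersection of `M` with the hyperplane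
`T_a(M) + t v`, where `v` is a unit normal at `a`, written in the isometric coordinates
`y ↦ a + t v + ι y` of this hyperplane (`ι` being a linear isometry onto `v^⊥`). -/
def planeSection {k : ℕ} (M : Set (E (k + 1))) (a v : E (k + 1)) (ι : E k →ₗᵢ[ℝ] E (k + 1))
    (r t : ℝ) : Set (E k) :=
  {y | a + t • v + ι y ∈ M ∩ Metric.ball a r}

/-- `M ⊆ ℝ^{k+1}` is locally polynomially integrable: for every `a ∈ M` there is a polynomial `P`
such that for all small `t > 0` the `k`-dimensional volume of the domain of the hyperplane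
`T_a(M) + t v_a` enclosed by its intersection with `M` near `a` is `P(t)`. -/
def LocallyPolynomiallyIntegrable {k : ℕ} (M : Set (E (k + 1))) : Prop :=
  ∀ a ∈ M, ∀ v, IsInnerUnitNormal M a v →
    ∀ ι : E k →ₗᵢ[ℝ] E (k + 1), (∀ y, ⟪ι y, v⟫ = 0) →
      ∃ P : Polynomial ℝ, ∀ᶠ r in 𝓝[>] (0 : ℝ), ∀ᶠ t in 𝓝[>] (0 : ℝ),
        volume (enclosed (planeSection M a v ι r t)) ≠ ⊤ ∧
        (volume (enclosed (planeSection M a v ι r t))).toReal = P.eval t

/-- A quadric of `ℝⁿ`: the zero set of a polynomial `⟨x, S x⟩ + ⟨b, x⟩ + c` of degree at most `2`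
(`S` symmetric) whose coefficients are not all zero. Every ellipsoid, elliptic paraboloid and
two-sheeted hyperboloid is one. -/
def IsQuadric {n : ℕ} (Z : Set (E n)) : Prop :=
  ∃ (S : E n →ₗ[ℝ] E n) (b : E n) (c : ℝ), S.IsSymmetric ∧ ¬ (S = 0 ∧ b = 0 ∧ c = 0) ∧
    Z = {x | ⟪x, S x⟫ + ⟪b, x⟫ + c = 0}

end Pool.Agent.Lib.MP_bfe3ea_gt
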