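import Mathlib
import Pool.Agent.Lib.MP_bfe3ea_gt.Defs

set_option autoImplicit false

open scoped RealInnerProductSpace Topology ContDiff
open MeasureTheory Set

namespace Pool.Agent.Lib.MP_bfe3ea_gt

/-- The region enclosed by a level set `{g ∘ Ψ = s}` of a function whose sublevel set is bounded
and whose superlevel set is radially unbounded. -/
theorem enclosed_levelSet {k : ℕ} (Ψ : E k ≃ₜ E k) (g : E k → ℝ) (hg : Continuous g) (s : ℝ)
    (hbdd : Bornology.IsBounded {w | g w < s}) (c : E k)
    (hray : ∀ w, s < g w → w ≠ c ∧ ∀ l : ℝ, 1 ≤ l → s < g (c + l • (w - c))) :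
    enclosed {y | g (Ψ y) = s} = {y | g (Ψ y) < s} := by
  have hpre : ∀ A : Set (E k), Bornology.IsBounded A → Bornology.IsBounded (Ψ ⁻¹' A) := by
    intro A hA
    have h1 : IsCompact (closure A) := hA.isCompact_closure
    have h2 : IsCompact (Ψ.symm '' closure A) := h1.image Ψ.symm.continuous
    refine h2.isBounded.subset ?_
    intro x hx
    exact ⟨Ψ x, subset_closure hx, by simp⟩
  have himg : ∀ A : Set (E k), Bornology.IsBounded A → Bornology.IsBounded (Ψ '' A) := by
    intro A hA
    have h1 : IsCompact (closure A) := hA.isCompact_closure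
    have h2 : IsCompact (Ψ '' closure A) := h1.image Ψ.continuous
    exact h2.isBounded.subset (image_mono subset_closure)
  have hcont : Continuous fun y => g (Ψ y) := hg.comp Ψ.continuous
  ext y
  simp only [enclosed, mem_ofPred_eq]
  constructor
  · rintro ⟨h1, h2⟩
    by_contra h3
    have h4 : s < g (Ψ y) := lt_of_le_of_ne (not_lt.mp h3) (Ne.symm h1)
    obtain ⟨hne, hr⟩ := hray _ h4
    -- the ray
    set R : Set (E k) := (fun l : ℝ => c + l • (Ψ y - c)) '' Ici 1 with hR
    have hRc : IsPreconnected R := by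
      apply isPreconnected_Ici.image
      fun_prop
    have hR2 : IsPreconnected (Ψ ⁻¹' R) := by
      have : Ψ ⁻¹' R = Ψ.symm '' R := by
        ext x
        constructor
        · intro hx; exact ⟨Ψ x, hx, by simp⟩
        · rintro ⟨z, hz, rfl⟩; simpa using hz
      rw [this]
      exact hRc.image _ Ψ.symm.continuous.continuousOn
    have hyR : y ∈ Ψ ⁻¹' R := ⟨1, by simp, by simp⟩
    have hsub : Ψ ⁻¹' R ⊆ {y | g (Ψ y) = s}ᶜ := by
      rintro x ⟨l, hl, hx⟩ hx2
      have := hr l hl
      beta_reduce at hx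
      rw [hx] at this
      exact absurd hx2 (ne_of_gt this)
    have hcomp := hR2.subset_connectedComponentIn hyR hsub
    have hb := himg _ (h2.subset hcomp)
    rw [image_preimage_eq _ Ψ.surjective] at hb
    obtain ⟨B, hB⟩ := hb.exists_norm_le
    have hpos : 0 < ‖Ψ y - c‖ := norm_pos_iff.mpr (sub_ne_zero.mpr hne)
    have h5 : ∀ l : ℝ, 1 ≤ l → l * ‖Ψ y - c‖ ≤ B + ‖c‖ := by
      intro l hl
      have := hB _ ⟨l, hl, rfl⟩
      have h6 : ‖l • (Ψ y - c)‖ ≤ ‖c + l • (Ψ y - c)‖ + ‖c‖ := by
        have := norm_sub_le (c + l • (Ψ y - c)) c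
        simpa using this
      rw [norm_smul, Real.norm_eq_abs, abs_of_nonneg (by linarith)] at h6
      linarith
    have h6 := h5 (max 1 ((B + ‖c‖ + 1) / ‖Ψ y - c‖)) (le_max_left _ _)
    have h7 : (B + ‖c‖ + 1) ≤ max 1 ((B + ‖c‖ + 1) / ‖Ψ y - c‖) * ‖Ψ y - c‖ := by
      calc (B + ‖c‖ + 1) = ((B + ‖c‖ + 1) / ‖Ψ y - c‖) * ‖Ψ y - c‖ := by field_simp
        _ ≤ _ := by
          apply mul_le_mul_of_nonneg_right (le_max_right _ _) hpos.le
    linarith
  · intro h1
    refine ⟨ne_of_lt h1, ?_⟩
    refine (hpre _ hbdd).subset ?_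
    have hpc : IsPreconnected (connectedComponentIn {y | g (Ψ y) = s}ᶜ y) :=
      isPreconnected_connectedComponentIn
    have hsub : connectedComponentIn {y | g (Ψ y) = s}ᶜ y ⊆
        {y | g (Ψ y) < s} ∪ {y | s < g (Ψ y)} := by
      intro x hx
      have := connectedComponentIn_subset _ _ hx
      rcases lt_trichotomy (g (Ψ x)) s with h | h | h
      · exact Or.inl h
      · exact absurd h this
      · exact Or.inr h
    have hyc : y ∈ connectedComponentIn {y | g (Ψ y) = s}ᶜ y :=
      mem_connectedComponentIn (ne_of_lt h1)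
    refine hpc.subset_left_of_subset_union (isOpen_lt hcont continuous_const)
      (isOpen_lt continuous_const hcont) ?_ hsub ⟨y, hyc, h1⟩
    rw [Set.disjoint_left]
    intro x hx hx2
    exact lt_asymm (show g (Ψ x) < s from hx) hx2

end Pool.Agent.Lib.MP_bfe3ea_gt
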