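import Mathlib
import Pool.Agent.Lib.MP_bfe3ea_gt.Defs

set_option autoImplicit false

open scoped RealInnerProductSpace Topology ContDiff
open MeasureTheory Set

namespace Pool.Agent.Lib.MP_bfe3ea_gt

variable {m : ℕ}

/-- the first coordinate vector of the parameter space -/
noncomputable def e0 (m : ℕ) : E (m + 2) := EuclideanSpace.single 0 1

/-- vertical direction of the ambient space -/
noncomputable def ez (m : ℕ) : E (m + 3) := EuclideanSpace.single 0 1

/-- the embedding of the parameter space -/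
noncomputable def jm : E (m + 2) →ₗ[ℝ] E (m + 3) where
  toFun w := WithLp.toLp 2 (Fin.cons 0 (WithLp.ofLp w))
  map_add' x y := by
    ext i
    refine Fin.cases ?_ (fun i => ?_) i <;> simp
  map_smul' c x := by
    ext i
    refine Fin.cases ?_ (fun i => ?_) i <;> simp

/-- the projection to the parameter space -/
noncomputable def pm : E (m + 3) →ₗ[ℝ] E (m + 2) where
  toFun x := WithLp.toLp 2 (fun i => x i.succ)
  map_add' x y := by
    ext i
    simp
  map_smul' c x := by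
    ext i
    simp

@[simp] theorem jm_zero (w : E (m + 2)) : jm w 0 = 0 := rfl
@[simp] theorem jm_succ (w : E (m + 2)) (i : Fin (m + 2)) : jm w i.succ = w i := by simp [jm]
@[simp] theorem pm_apply (x : E (m + 3)) (i : Fin (m + 2)) : pm x i = x i.succ := rfl
@[simp] theorem pm_jm (w : E (m + 2)) : pm (jm w) = w := by ext i; simp
@[simp] theorem ez_zero : ez m 0 = 1 := by simp [ez]
@[simp] theorem ez_succ (i : Fin (m + 2)) : ez m i.succ = 0 := by simp [ez]
@[simp] theorem pm_ez : pm (ez m) = 0 := by ext i; simp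
@[simp] theorem e0_zero : e0 m 0 = 1 := by simp [e0]

theorem inner_expand (x y : E (m + 3)) : ⟪x, y⟫ = x 0 * y 0 + ⟪pm x, pm y⟫ := by
  simp only [PiLp.inner_apply, RCLike.inner_apply, conj_trivial]
  rw [Fin.sum_univ_succ]
  simp [mul_comm]

@[simp] theorem inner_e0 (w : E (m + 2)) : ⟪w, e0 m⟫ = w 0 := by
  simp [e0, EuclideanSpace.inner_single_right]

@[simp] theorem inner_e0' (w : E (m + 2)) : ⟪e0 m, w⟫ = w 0 := by
  rw [real_inner_comm, inner_e0]

theorem decomp (x : E (m + 3)) : x = jm (pm x) + x 0 • ez m := by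
  ext i
  refine Fin.cases ?_ (fun i => ?_) i <;> simp

@[simp] theorem norm_e0 : ‖e0 m‖ = 1 := by simp [e0]

/-- squared norm of all but the first coordinate -/
noncomputable def bt (w : E (m + 2)) : ℝ := ‖w‖ ^ 2 - (w 0) ^ 2

theorem bt_add_smul (w : E (m + 2)) (c : ℝ) : bt (w + c • e0 m) = bt w := by
  simp only [bt]
  rw [norm_add_sq_real, inner_smul_right, inner_e0, norm_smul, norm_e0]
  simp
  ring

/-- The parametrization. -/
noncomputable def X (w : E (m + 2)) : E (m + 3) := jm (w + bt w • e0 m) + ‖w‖ ^ 2 • ez m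

/-- The inverse of the shear. -/
noncomputable def Ts (w : E (m + 2)) : E (m + 2) := w - bt w • e0 m

@[simp] theorem X_zero (w : E (m + 2)) : X w 0 = ‖w‖ ^ 2 := by simp [X]
@[simp] theorem pm_X (w : E (m + 2)) : pm (X w) = w + bt w • e0 m := by simp [X]
@[simp] theorem Ts_shear (w : E (m + 2)) : Ts (w + bt w • e0 m) = w := by
  simp [Ts, bt_add_smul]
theorem shear_Ts (w : E (m + 2)) : Ts w + bt (Ts w) • e0 m = w := by
  have : bt (Ts w) = bt w := by
    have := bt_add_smul w (-bt w)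
    simpa [Ts, sub_eq_add_neg] using this
  rw [this]
  simp [Ts]
@[simp] theorem Ts_pm_X (w : E (m + 2)) : Ts (pm (X w)) = w := by simp

theorem eq_X_add (x : E (m + 3)) :
    x = X (Ts (pm x)) + (x 0 - ‖Ts (pm x)‖ ^ 2) • ez m := by
  conv_lhs => rw [decomp x]
  rw [X, shear_Ts, sub_smul]
  abel

/-- The hypersurface. -/
def Mset (m : ℕ) : Set (E (m + 3)) := X '' {w : E (m + 2) | w 0 < 1 / 2}

theorem mem_Mset (x : E (m + 3)) :
    x ∈ Mset m ↔ x 0 = ‖Ts (pm x)‖ ^ 2 ∧ Ts (pm x) 0 < 1 / 2 := by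
  constructor
  · rintro ⟨w, hw, rfl⟩
    simpa using hw
  · rintro ⟨h1, h2⟩
    refine ⟨Ts (pm x), h2, ?_⟩
    conv_rhs => rw [eq_X_add x]
    simp [h1]

/-- The conormal vector. -/
noncomputable def nv (w : E (m + 2)) : E (m + 3) :=
  ez m - jm ((2 * w 0) • e0 m + (2 * (1 - 2 * w 0)) • (w - w 0 • e0 m))

@[simp] theorem nv_zero (w : E (m + 2)) : nv w 0 = 1 := by simp [nv]
@[simp] theorem pm_nv (w : E (m + 2)) :
    pm (nv w) = -((2 * w 0) • e0 m + (2 * (1 - 2 * w 0)) • (w - w 0 • e0 m)) := by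
  simp [nv]

/-- The quadratic form of the height over the tangent plane. -/
noncomputable def Qf (q : ℝ) (h : E (m + 2)) : ℝ := (1 - q) * (‖h‖ ^ 2 - (h 0) ^ 2) + (h 0) ^ 2

theorem inner_X_nv (w w0 : E (m + 2)) :
    ⟪X w - X w0, nv w0⟫ = Qf (2 * w0 0) (w - w0) := by
  rw [inner_expand]
  simp only [PiLp.sub_apply, X_zero, nv_zero, mul_one, map_sub, pm_X, pm_nv, inner_neg_right,
    inner_add_right, inner_smul_right, inner_sub_right, inner_sub_left, inner_add_left,
    inner_smul_left, inner_e0, inner_e0', norm_e0, Qf, norm_sub_sq_real, bt, real_inner_self_eq_norm_sq,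
    conj_trivial]
  ring

@[fun_prop] theorem contDiff_jm : ContDiff ℝ ∞ (jm : E (m + 2) → E (m + 3)) :=
  (LinearMap.toContinuousLinearMap jm).contDiff

@[fun_prop] theorem contDiff_pm : ContDiff ℝ ∞ (pm : E (m + 3) → E (m + 2)) :=
  (LinearMap.toContinuousLinearMap pm).contDiff

@[fun_prop] theorem contDiff_coord {n : ℕ} (i : Fin n) : ContDiff ℝ ∞ (fun w : E n => w i) := by
  exact (EuclideanSpace.proj (𝕜 := ℝ) i).contDiff

@[fun_prop] theorem contDiff_bt : ContDiff ℝ ∞ (bt : E (m + 2) → ℝ) := by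
  unfold bt
  exact (contDiff_norm_sq ℝ).sub ((contDiff_coord 0).pow 2)

@[fun_prop] theorem contDiff_X : ContDiff ℝ ∞ (X : E (m + 2) → E (m + 3)) := by
  have h1 : ContDiff ℝ ∞ (fun w : E (m + 2) => w + bt w • e0 m) :=
    contDiff_id.add (contDiff_bt.smul contDiff_const)
  have h2 : ContDiff ℝ ∞ (fun w : E (m + 2) => ‖w‖ ^ 2 • ez m) :=
    (contDiff_norm_sq ℝ).smul contDiff_const
  exact (contDiff_jm.comp h1).add h2

@[fun_prop] theorem contDiff_Ts : ContDiff ℝ ∞ (Ts : E (m + 2) → E (m + 2)) :=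
  contDiff_id.sub (contDiff_bt.smul contDiff_const)

/-- The global defining function. -/
noncomputable def Fd (x : E (m + 3)) : ℝ := x 0 - ‖Ts (pm x)‖ ^ 2

theorem contDiff_Fd : ContDiff ℝ ∞ (Fd : E (m + 3) → ℝ) := by
  have h1 : ContDiff ℝ ∞ (fun x : E (m + 3) => Ts (pm x)) := contDiff_Ts.comp contDiff_pm
  exact (contDiff_coord 0).sub ((contDiff_norm_sq ℝ).comp h1)

theorem Fd_add (x : E (m + 3)) (s : ℝ) : Fd (x + s • ez m) = Fd x + s := by
  simp [Fd]; ring

theorem fderiv_Fd_ne (x : E (m + 3)) : fderiv ℝ Fd x ≠ 0 := by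
  intro h
  have hd : HasFDerivAt (Fd : E (m + 3) → ℝ) (fderiv ℝ Fd x) (x + (0 : ℝ) • ez m) := by
    simpa using (contDiff_Fd.differentiable (by simp) x).hasFDerivAt
  have hc : HasDerivAt (fun s : ℝ => x + s • ez m) (ez m) 0 := by
    simpa using ((hasDerivAt_id (0 : ℝ)).smul_const (ez m)).const_add x
  have h1 := hd.comp_hasDerivAt (0 : ℝ) hc
  simp only [Function.comp_def] at h1
  have h2 : HasDerivAt (fun s : ℝ => Fd (x + s • ez m)) 1 0 := by
    simp only [Fd_add]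
    simpa using (hasDerivAt_id (0 : ℝ)).const_add (Fd x)
  have := h1.unique h2
  rw [h] at this
  simp at this

theorem isSmooth_Mset : IsSmoothHypersurface (Mset m) := by
  intro a ha
  have h1 : ContDiff ℝ ∞ (fun x : E (m + 3) => Ts (pm x)) := contDiff_Ts.comp contDiff_pm
  have h2 : Continuous (fun x : E (m + 3) => Ts (pm x) 0) :=
    ((contDiff_coord 0).comp h1).continuous
  refine ⟨{x | Ts (pm x) 0 < 1 / 2}, isOpen_lt h2 continuous_const, ((mem_Mset a).mp ha).2,
    Fd, contDiff_Fd.contDiffOn, fun x _ => fderiv_Fd_ne x, ?_⟩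
  ext x
  simp only [mem_inter_iff, mem_Mset, mem_ofPred_eq, Fd, sub_eq_zero]
  tauto

theorem isConnected_Mset : IsConnected (Mset m) := by
  refine IsConnected.image ?_ _ contDiff_X.continuous.continuousOn
  refine ⟨⟨0, by simp⟩, ?_⟩
  have : Convex ℝ {w : E (m + 2) | w 0 < 1 / 2} := by
    have := (convex_Iio (1 / 2 : ℝ)).linear_preimage
      (EuclideanSpace.proj (𝕜 := ℝ) (0 : Fin (m + 2))).toLinearMap
    exact this
  exact this.isPreconnected

theorem Qf_lower (q : ℝ) (h : E (m + 2)) : min (1 - q) 1 * ‖h‖ ^ 2 ≤ Qf q h := by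
  have h0 : (h 0) ^ 2 ≤ ‖h‖ ^ 2 := by
    rw [EuclideanSpace.norm_sq_eq]
    have := Finset.single_le_sum (f := fun i => ‖h i‖ ^ 2) (fun i _ => by positivity)
      (Finset.mem_univ (0 : Fin (m + 2)))
    simpa using this
  have h1 : min (1 - q) 1 ≤ 1 - q := min_le_left _ _
  have h2 : min (1 - q) 1 ≤ 1 := min_le_right _ _
  unfold Qf
  nlinarith [sq_nonneg (h 0)]

theorem Qf_upper (q : ℝ) (h : E (m + 2)) : |Qf q h| ≤ (|1 - q| + 1) * ‖h‖ ^ 2 := by
  have h0 : (h 0) ^ 2 ≤ ‖h‖ ^ 2 := by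
    rw [EuclideanSpace.norm_sq_eq]
    have := Finset.single_le_sum (f := fun i => ‖h i‖ ^ 2) (fun i _ => by positivity)
      (Finset.mem_univ (0 : Fin (m + 2)))
    simpa using this
  unfold Qf
  calc |(1 - q) * (‖h‖ ^ 2 - (h 0) ^ 2) + (h 0) ^ 2|
      ≤ |(1 - q) * (‖h‖ ^ 2 - (h 0) ^ 2)| + |(h 0) ^ 2| := abs_add_le _ _
    _ = |1 - q| * (‖h‖ ^ 2 - (h 0) ^ 2) + (h 0) ^ 2 := by
        rw [abs_mul, abs_of_nonneg (sub_nonneg.mpr h0), abs_of_nonneg (sq_nonneg (h 0))]
    _ ≤ (|1 - q| + 1) * ‖h‖ ^ 2 := by nlinarith [abs_nonneg (1 - q), sq_nonneg (h 0)]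

theorem Qf_zero (q : ℝ) : Qf q (0 : E (m + 2)) = 0 := by simp [Qf]

theorem Qf_smul (q c : ℝ) (h : E (m + 2)) : Qf q (c • h) = c ^ 2 * Qf q h := by
  simp [Qf, norm_smul, mul_pow]
  ring

theorem contDiff_Qf (q : ℝ) : ContDiff ℝ ∞ (Qf q : E (m + 2) → ℝ) := by
  unfold Qf
  exact (contDiff_const.mul ((contDiff_norm_sq ℝ).sub ((contDiff_coord 0).pow 2))).add
    ((contDiff_coord 0).pow 2)

theorem hasFDerivAt_Qf (q : ℝ) : HasFDerivAt (Qf q : E (m + 2) → ℝ) (0 : E (m + 2) →L[ℝ] ℝ) 0 := by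
  rw [hasFDerivAt_iff_isLittleO_nhds_zero]
  simp only [zero_add, Qf_zero, sub_zero, zero_apply]
  have h1 : (fun h : E (m + 2) => Qf q h) =O[𝓝 0] fun h => ‖h‖ ^ 2 := by
    refine Asymptotics.IsBigO.of_bound (|1 - q| + 1) (Filter.Eventually.of_forall fun h => ?_)
    rw [Real.norm_eq_abs, Real.norm_eq_abs, abs_of_nonneg (sq_nonneg ‖h‖)]
    exact Qf_upper q h
  refine h1.trans_isLittleO ?_
  have := (Asymptotics.isLittleO_norm_pow_id (E' := E (m + 2)) (n := 2) (by norm_num))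
  exact this

theorem inner_tangent (w0 : E (m + 2)) :
    ∀ w ∈ tangentConeAt ℝ (Mset m) (X w0), ⟪w, nv w0⟫ = 0 := by
  intro w hw
  have h1 : HasFDerivAt (fun x : E (m + 3) => ⟪x - X w0, nv w0⟫) (innerSL ℝ (nv w0)) (X w0) := by
    have h2 := (innerSL ℝ (nv w0)).hasFDerivAt.comp (X w0)
        ((hasFDerivAt_id (X w0)).sub_const (X w0))
    simp only [Function.comp_def, ContinuousLinearMap.comp_id, innerSL_apply_apply] at h2
    have heq : (fun x : E (m + 3) => ⟪x - X w0, nv w0⟫)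
        = fun x : E (m + 3) => ⟪nv w0, id x - X w0⟫ := by
      funext x
      exact real_inner_comm _ _
    rw [heq]
    exact h2
  have h3 : HasFDerivAt (fun x : E (m + 3) => Qf (2 * w0 0) (Ts (pm x) - w0))
      (0 : E (m + 3) →L[ℝ] ℝ) (X w0) := by
    have hd : ContDiff ℝ ∞ (fun x : E (m + 3) => Ts (pm x) - w0) :=
      (contDiff_Ts.comp contDiff_pm).sub contDiff_const
    have hd' := (hd.differentiable (by simp) (X w0)).hasFDerivAt
    have hq : HasFDerivAt (Qf (2 * w0 0) : E (m + 2) → ℝ) (0 : E (m + 2) →L[ℝ] ℝ)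
        (Ts (pm (X w0)) - w0) := by
      simpa using hasFDerivAt_Qf (m := m) (2 * w0 0)
    have := hq.comp (X w0) hd'
    simp only [Function.comp_def, ContinuousLinearMap.zero_comp] at this
    exact this
  have h4 : HasFDerivWithinAt (fun x : E (m + 3) => ⟪x - X w0, nv w0⟫)
      (0 : E (m + 3) →L[ℝ] ℝ) (Mset m) (X w0) := by
    refine h3.hasFDerivWithinAt.congr ?_ ?_
    · rintro x ⟨u, hu, rfl⟩
      beta_reduce
      rw [inner_X_nv, Ts_pm_X]
    · simp [Qf_zero]
  have h5 := h1.hasFDerivWithinAt.unique_on h4 hw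
  rw [innerSL_apply_apply] at h5
  rw [real_inner_comm]
  simpa using h5

end Pool.Agent.Lib.MP_bfe3ea_gt
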