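import Mathlib
import Pool.Agent.Lib.MP_bfe3ea_gt.Example

set_option autoImplicit false

open scoped RealInnerProductSpace Topology ContDiff
open MeasureTheory Set

namespace Pool.Agent.Lib.MP_bfe3ea_gt

variable {m : ℕ}

theorem nv_ne_zero (w : E (m + 2)) : nv w ≠ 0 := by
  intro h
  have := nv_zero w
  rw [h] at this
  simp at this

/-- The unit normal. -/
noncomputable def un (w : E (m + 2)) : E (m + 3) := ‖nv w‖⁻¹ • nv w

theorem norm_un (w : E (m + 2)) : ‖un w‖ = 1 := by
  rw [un, norm_smul, norm_inv, norm_norm]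
  exact inv_mul_cancel₀ (norm_ne_zero_iff.mpr (nv_ne_zero w))

theorem Qf_pos {q : ℝ} (hq : q < 1) {h : E (m + 2)} (hh : h ≠ 0) : 0 < Qf q h := by
  have h1 := Qf_lower q h
  have h2 : 0 < min (1 - q) 1 := lt_min (by linarith) one_pos
  have h3 : 0 < ‖h‖ := norm_pos_iff.mpr hh
  have : 0 < min (1 - q) 1 * ‖h‖ ^ 2 := by positivity
  linarith

theorem isInner_un (w0 : E (m + 2)) (hw0 : w0 0 < 1 / 2) :
    IsInnerUnitNormal (Mset m) (X w0) (un w0) := by
  refine ⟨norm_un w0, ?_, ?_⟩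
  · intro w hw
    rw [un, inner_smul_right, inner_tangent w0 w hw, mul_zero]
  · rintro x ⟨u, hu, rfl⟩ hne
    rw [un, inner_smul_right, inner_X_nv]
    have h1 : 0 < ‖nv w0‖ := norm_pos_iff.mpr (nv_ne_zero w0)
    have h2 : u - w0 ≠ 0 := by
      intro h
      apply hne
      rw [sub_eq_zero.mp h]
    have := Qf_pos (q := 2 * w0 0) (by linarith) h2
    positivity

theorem isStrictlyConvex_Mset : IsStrictlyConvexHypersurface (Mset m) := by
  refine ⟨isConnected_Mset, isSmooth_Mset, ?_⟩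
  rintro a ⟨w, hw, rfl⟩
  exact ⟨un w, isInner_un w hw⟩

/-- derivative of the parametrization along a line -/
theorem hasDerivAt_X_line (w0 h : E (m + 2)) :
    HasDerivAt (fun s : ℝ => X (w0 + s • h))
      (jm (h + (2 * (⟪w0, h⟫ - w0 0 * h 0)) • e0 m) + (2 * ⟪w0, h⟫) • ez m) 0 := by
  have hX : (fun s : ℝ => X (w0 + s • h)) = fun s : ℝ =>
      X w0 + s • (jm (h + (2 * (⟪w0, h⟫ - w0 0 * h 0)) • e0 m) + (2 * ⟪w0, h⟫) • ez m)
        + s ^ 2 • (bt h • jm (e0 m) + ‖h‖ ^ 2 • ez m) := by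
    funext s
    simp only [X, bt, map_add, map_smul, norm_add_sq_real, inner_smul_right, norm_smul,
      PiLp.add_apply, PiLp.smul_apply, smul_eq_mul, mul_pow, Real.norm_eq_abs, sq_abs]
    module
  rw [hX]
  have h1 : HasDerivAt (fun s : ℝ => s ^ 2) 0 (0 : ℝ) := by
    simpa using hasDerivAt_pow 2 (0 : ℝ)
  have h2 := (((hasDerivAt_id (0 : ℝ)).smul_const (jm (h + (2 * (⟪w0, h⟫ - w0 0 * h 0)) • e0 m) +
    (2 * ⟪w0, h⟫) • ez m)).const_add (X w0)).fun_add
    (h1.smul_const (bt h • jm (e0 m) + ‖h‖ ^ 2 • ez m))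
  simpa using h2

theorem mem_tangentCone (w0 : E (m + 2)) (hw0 : w0 0 < 1 / 2) (h : E (m + 2)) :
    jm (h + (2 * (⟪w0, h⟫ - w0 0 * h 0)) • e0 m) + (2 * ⟪w0, h⟫) • ez m ∈
      tangentConeAt ℝ (Mset m) (X w0) := by
  have hd : HasFDerivAt (X : E (m + 2) → E (m + 3)) (fderiv ℝ X w0) w0 :=
    (contDiff_X.differentiable (by simp) w0).hasFDerivAt
  have hopen : IsOpen {w : E (m + 2) | w 0 < 1 / 2} :=
    isOpen_lt (contDiff_coord 0).continuous continuous_const
  have h1 := hd.hasFDerivWithinAt (s := {w : E (m + 2) | w 0 < 1 / 2}) |>.mapsTo_tangent_cone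
  have h2 : fderiv ℝ X w0 h ∈ tangentConeAt ℝ (Mset m) (X w0) := by
    apply h1
    rw [tangentConeAt_of_mem_nhds (hopen.mem_nhds hw0)]
    trivial
  have h3 : fderiv ℝ X w0 h =
      jm (h + (2 * (⟪w0, h⟫ - w0 0 * h 0)) • e0 m) + (2 * ⟪w0, h⟫) • ez m := by
    have hc : HasDerivAt (fun s : ℝ => w0 + s • h) h 0 := by
      simpa using ((hasDerivAt_id (0 : ℝ)).smul_const h).const_add w0
    have hd' : HasFDerivAt (X : E (m + 2) → E (m + 3)) (fderiv ℝ X w0) (w0 + (0 : ℝ) • h) := by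
      simpa using hd
    have h4 := hd'.comp_hasDerivAt (0 : ℝ) hc
    exact h4.unique (hasDerivAt_X_line w0 h)
  rwa [h3] at h2

theorem normal_unique (w0 : E (m + 2)) (hw0 : w0 0 < 1 / 2) (v : E (m + 3))
    (hv : IsInnerUnitNormal (Mset m) (X w0) v) : v = un w0 := by
  obtain ⟨hv1, hv2, hv3⟩ := hv
  -- the horizontal part of `v`
  have key : ∀ h : E (m + 2),
      ⟪h, pm v⟫ + 2 * (⟪w0, h⟫ - w0 0 * h 0) * v 1 + 2 * ⟪w0, h⟫ * v 0 = 0 := by
    intro h
    have h1 := hv2 _ (mem_tangentCone w0 hw0 h)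
    rw [inner_expand] at h1
    simp only [PiLp.add_apply, PiLp.smul_apply, jm_zero, ez_zero, smul_eq_mul, mul_one, zero_add,
      map_add, map_smul, pm_jm, pm_ez, smul_zero, add_zero, inner_add_left, inner_smul_left,
      inner_e0', pm_apply, conj_trivial] at h1
    have h2 : v (Fin.succ 0) = v 1 := rfl
    rw [h2] at h1
    linarith
  have hpm : pm v = (v 0) • pm (nv w0) := by
    have h0 : v 1 = - (2 * w0 0) * v 0 := by
      have := key (e0 m)
      rw [inner_e0', inner_e0, e0_zero] at this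
      have h2 : pm v 0 = v 1 := rfl
      rw [h2] at this
      linarith
    have h1 : ∀ h : E (m + 2), ⟪h, pm v - (v 0) • pm (nv w0)⟫ = 0 := by
      intro h
      have := key h
      rw [h0] at this
      rw [inner_sub_right, inner_smul_right, pm_nv]
      simp only [inner_neg_right, inner_add_right, inner_smul_right, inner_sub_right, inner_e0]
      rw [real_inner_comm h w0] at this
      linear_combination this
    have h2 := h1 (pm v - (v 0) • pm (nv w0))
    rw [inner_self_eq_zero, sub_eq_zero] at h2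
    exact h2
  have hveq : v = (v 0) • nv w0 := by
    rw [decomp v, hpm, decomp (nv w0)]
    simp
  have hpos : 0 < v 0 := by
    -- test with a point of `M`
    have h1 := hv3 (X (w0 - e0 m)) ⟨w0 - e0 m, by simp; linarith, rfl⟩ (by
      intro h
      have := congrArg (fun x => Ts (pm x)) h
      simp only [Ts_pm_X] at this
      have h2 : e0 m = 0 := by simpa using this
      have := norm_e0 (m := m)
      rw [h2] at this
      simp at this)
    rw [hveq, inner_smul_right, inner_X_nv] at h1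
    have h2 : Qf (2 * w0 0) (w0 - e0 m - w0) = 1 := by
      have : w0 - e0 m - w0 = -e0 m := by abel
      rw [this]
      simp [Qf]
    rw [h2, mul_one] at h1
    exact h1
  have hnorm : v 0 = ‖nv w0‖⁻¹ := by
    have h1 : ‖v‖ = v 0 * ‖nv w0‖ := by
      conv_lhs => rw [hveq]
      rw [norm_smul, Real.norm_eq_abs, abs_of_pos hpos]
    rw [hv1] at h1
    exact eq_inv_of_mul_eq_one_left h1.symm
  rw [un, ← hnorm]
  exact hveq

end Pool.Agent.Lib.MP_bfe3ea_gt
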