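import Mathlib
import Pool.Agent.Lib.MP_bfe3ea_gt.Example

set_option autoImplicit false

open scoped RealInnerProductSpace Topology ContDiff
open MeasureTheory Set

namespace Pool.Agent.Lib.MP_bfe3ea_gt

variable {m : ℕ}

/-- A real quartic polynomial function vanishing near zero has zero coefficients. -/
theorem quartic_zero {c0 c1 c2 c3 c4 δ : ℝ} (hδ : 0 < δ)
    (h : ∀ s : ℝ, 0 < s → s < δ → c0 + c1 * s + c2 * s ^ 2 + c3 * s ^ 3 + c4 * s ^ 4 = 0) :
    c0 = 0 ∧ c1 = 0 ∧ c2 = 0 ∧ c3 = 0 ∧ c4 = 0 := by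
  let p : Polynomial ℝ := Polynomial.C c0 + Polynomial.C c1 * Polynomial.X +
    Polynomial.C c2 * Polynomial.X ^ 2 + Polynomial.C c3 * Polynomial.X ^ 3 +
    Polynomial.C c4 * Polynomial.X ^ 4
  have hp : p = 0 := by
    apply Polynomial.eq_zero_of_infinite_isRoot
    refine (Set.Ioo_infinite hδ).mono ?_
    intro s hs
    have := h s hs.1 hs.2
    simpa [p, Polynomial.IsRoot] using this
  have hc : ∀ n, p.coeff n = 0 := by
    intro n
    rw [hp]
    simp
  refine ⟨?_, ?_, ?_, ?_, ?_⟩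
  · simpa [p, Polynomial.coeff_X, Polynomial.coeff_C] using hc 0
  · simpa [p, Polynomial.coeff_X, Polynomial.coeff_C] using hc 1
  · simpa [p, Polynomial.coeff_X, Polynomial.coeff_C] using hc 2
  · simpa [p, Polynomial.coeff_X, Polynomial.coeff_C] using hc 3
  · simpa [p, Polynomial.coeff_X, Polynomial.coeff_C] using hc 4

theorem coeffs_zero (S : E (m + 3) →ₗ[ℝ] E (m + 3)) (b : E (m + 3)) (c : ℝ)
    (hM : ∀ x ∈ Mset m, ⟪x, S x⟫ + ⟪b, x⟫ + c = 0) (w : E (m + 2)) :
    c = 0 ∧ ⟪b, jm w⟫ = 0 ∧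
    (⟪b, bt w • jm (e0 m) + ‖w‖ ^ 2 • ez m⟫ + ⟪jm w, S (jm w)⟫ = 0) ∧
    (⟪jm w, S (bt w • jm (e0 m) + ‖w‖ ^ 2 • ez m)⟫ +
      ⟪bt w • jm (e0 m) + ‖w‖ ^ 2 • ez m, S (jm w)⟫ = 0) ∧
    ⟪bt w • jm (e0 m) + ‖w‖ ^ 2 • ez m, S (bt w • jm (e0 m) + ‖w‖ ^ 2 • ez m)⟫ = 0 := by
  set J := jm w with hJ
  set K := bt w • jm (e0 m) + ‖w‖ ^ 2 • ez m with hK
  have hX : ∀ s : ℝ, X (s • w) = s • J + s ^ 2 • K := by
    intro s
    simp only [X, bt, map_add, map_smul, norm_smul, hJ, hK, PiLp.smul_apply, smul_eq_mul, mul_pow,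
      Real.norm_eq_abs, sq_abs]
    module
  have hδ : 0 < 1 / (2 * (|w 0| + 1)) := by positivity
  refine quartic_zero hδ ?_
  intro s hs1 hs2
  have hmem : X (s • w) ∈ Mset m := by
    refine ⟨s • w, ?_, rfl⟩
    simp only [mem_ofPred_eq, PiLp.smul_apply, smul_eq_mul]
    have h1 : s * w 0 ≤ s * |w 0| := mul_le_mul_of_nonneg_left (le_abs_self _) hs1.le
    have h2 : s * (|w 0| + 1) < 1 / 2 := by
      calc s * (|w 0| + 1) < 1 / (2 * (|w 0| + 1)) * (|w 0| + 1) :=
            mul_lt_mul_of_pos_right hs2 (by positivity)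
        _ = 1 / 2 := by field_simp
    nlinarith [abs_nonneg (w 0)]
  have := hM _ hmem
  rw [hX] at this
  simp only [map_add, map_smul, inner_add_left, inner_add_right, inner_smul_left,
    inner_smul_right, conj_trivial] at this
  linear_combination this

theorem bt_e0 : bt (e0 m) = 0 := by simp [bt]

/-- a second coordinate vector -/
noncomputable def e1 (m : ℕ) : E (m + 2) := EuclideanSpace.single 1 1

theorem e1_zero : e1 m 0 = 0 := by simp [e1]
theorem norm_e1 : ‖e1 m‖ = 1 := by simp [e1]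
theorem bt_e1 : bt (e1 m) = 1 := by simp [bt, norm_e1, e1_zero]

theorem not_quadric (S : E (m + 3) →ₗ[ℝ] E (m + 3)) (hS : S.IsSymmetric) (b : E (m + 3)) (c : ℝ)
    (hM : ∀ x ∈ Mset m, ⟪x, S x⟫ + ⟪b, x⟫ + c = 0) : S = 0 ∧ b = 0 ∧ c = 0 := by
  have hall := coeffs_zero S b c hM
  have hc : c = 0 := (hall 0).1
  have hb1 : ∀ w, ⟪b, jm w⟫ = 0 := fun w => (hall w).2.1
  have hsym : ∀ x y, ⟪x, S y⟫ = ⟪y, S x⟫ := by
    intro x y
    rw [← hS x y, real_inner_comm]
  set d := jm (e0 m) with hd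
  -- quartic part
  have h4 : ∀ w : E (m + 2), bt w ^ 2 * ⟪d, S d⟫ + 2 * bt w * ‖w‖ ^ 2 * ⟪d, S (ez m)⟫ +
      ‖w‖ ^ 4 * ⟪ez m, S (ez m)⟫ = 0 := by
    intro w
    have := (hall w).2.2.2.2
    simp only [map_add, map_smul, inner_add_left, inner_add_right, inner_smul_left,
      inner_smul_right, conj_trivial] at this
    rw [hsym (ez m) d] at this
    linear_combination this
  have hee : ⟪ez m, S (ez m)⟫ = 0 := by
    have := h4 (e0 m)
    simpa [bt_e0] using this
  have h4a := h4 (e1 m)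
  have h4b := h4 (e1 m + (1 : ℝ) • e0 m)
  have hn1 : ‖e1 m + (1 : ℝ) • e0 m‖ ^ 2 = 2 := by
    rw [norm_add_sq_real, inner_smul_right, inner_e0, e1_zero, norm_smul, norm_e1, norm_e0]
    norm_num
  have hn2 : ‖e1 m + (1 : ℝ) • e0 m‖ ^ 4 = 4 := by
    have : ‖e1 m + (1 : ℝ) • e0 m‖ ^ 4 = (‖e1 m + (1 : ℝ) • e0 m‖ ^ 2) ^ 2 := by ring
    rw [this, hn1]; norm_num
  rw [bt_e1, norm_e1, hee] at h4a
  rw [bt_add_smul, bt_e1, hn1, hn2, hee] at h4b
  have hde : ⟪d, S (ez m)⟫ = 0 := by linarith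
  have hdd : ⟪d, S d⟫ = 0 := by linarith
  -- cubic part
  have h3 : ∀ w : E (m + 2), bt w * ⟪jm w, S d⟫ + ‖w‖ ^ 2 * ⟪jm w, S (ez m)⟫ = 0 := by
    intro w
    have := (hall w).2.2.2.1
    simp only [map_add, map_smul, inner_add_left, inner_add_right, inner_smul_left,
      inner_smul_right, conj_trivial] at this
    rw [hsym d (jm w), hsym (ez m) (jm w)] at this
    linear_combination (1 / 2) * this
  have h3' : ∀ w : E (m + 2), ⟪jm w, S (ez m)⟫ = 0 := by
    intro w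
    have h3a := h3 w
    have h3b := h3 (w + (1 - 2 * w 0) • e0 m)
    have h3c := h3 (w + (2 - 2 * w 0) • e0 m)
    have hn : ∀ t : ℝ, ‖w + t • e0 m‖ ^ 2 = ‖w‖ ^ 2 + 2 * t * w 0 + t ^ 2 := by
      intro t
      rw [norm_add_sq_real, inner_smul_right, inner_e0, norm_smul, norm_e0, mul_one,
        Real.norm_eq_abs, sq_abs]
      ring
    rw [bt_add_smul, hn, map_add, map_smul, inner_add_left, inner_add_left, inner_smul_left,
      inner_smul_left] at h3b h3c
    rw [← hd, hdd, hde] at h3b h3c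
    simp only [mul_zero, add_zero] at h3b h3c
    have h5 : (2 * (1 - 2 * w 0) * w 0 + (1 - 2 * w 0) ^ 2) * ⟪jm w, S (ez m)⟫ = 0 := by
      linear_combination h3b - h3a
    have h6 : (2 * (2 - 2 * w 0) * w 0 + (2 - 2 * w 0) ^ 2) * ⟪jm w, S (ez m)⟫ = 0 := by
      linear_combination h3c - h3a
    have h7 : (1 - 2 * w 0) * ⟪jm w, S (ez m)⟫ = 0 := by linear_combination h5
    have h8 : (2 - 2 * w 0) * ⟪jm w, S (ez m)⟫ = 0 := by linear_combination (1 / 2) * h6
    linear_combination h8 - h7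
  -- quadratic part
  have h2 : ∀ w : E (m + 2), ‖w‖ ^ 2 * b 0 + ⟪jm w, S (jm w)⟫ = 0 := by
    intro w
    have := (hall w).2.2.1
    rw [inner_add_right, inner_smul_right, hb1, inner_smul_right] at this
    have hbz : ⟪b, ez m⟫ = b 0 := by
      rw [inner_expand]; simp
    rw [hbz] at this
    linear_combination this
  have hb0 : b 0 = 0 := by
    have := h2 (e0 m)
    rw [← hd, hdd, norm_e0] at this
    linarith
  have hb : b = 0 := by
    have h5 : pm b = 0 := by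
      have := hb1 (pm b)
      rw [inner_expand] at this
      simp only [jm_zero, mul_zero, pm_jm, zero_add, inner_self_eq_zero] at this
      exact this
    rw [decomp b, h5, hb0]
    simp
  have hq : ∀ w w' : E (m + 2), ⟪jm w, S (jm w')⟫ = 0 := by
    intro w w'
    have h5 := h2 w
    have h6 := h2 w'
    have h7 := h2 (w + w')
    rw [hb0, mul_zero, zero_add] at h5 h6 h7
    rw [map_add, map_add, inner_add_left, inner_add_right, inner_add_right, h5, h6,
      hsym (jm w') (jm w)] at h7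
    linarith
  refine ⟨?_, hb, hc⟩
  have hSj : ∀ w, S (jm w) = 0 := by
    intro w
    have h5 : ∀ y, ⟪y, S (jm w)⟫ = 0 := by
      intro y
      rw [decomp y, inner_add_left, inner_smul_left, hq, hsym (ez m) (jm w), h3']
      simp
    have := h5 (S (jm w))
    rwa [inner_self_eq_zero] at this
  have hSe : S (ez m) = 0 := by
    have h5 : ∀ y, ⟪y, S (ez m)⟫ = 0 := by
      intro y
      rw [decomp y, inner_add_left, inner_smul_left, h3', hee]
      simp
    have := h5 (S (ez m))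
    rwa [inner_self_eq_zero] at this
  ext1 x
  rw [decomp x, map_add, map_smul, hSj, hSe]
  simp

end Pool.Agent.Lib.MP_bfe3ea_gt
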