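import Mathlib
import Pool.Agent.Lib.MP_bfe3ea_gt.Normal
import Pool.Agent.Lib.MP_bfe3ea_gt.Enclosed

set_option autoImplicit false

open scoped RealInnerProductSpace Topology ContDiff Pointwise
open MeasureTheory Set

namespace Pool.Agent.Lib.MP_bfe3ea_gt

variable {m : ℕ}

/-- The shear. -/
noncomputable def Sh (w : E (m + 2)) : E (m + 2) := w + bt w • e0 m

theorem Ts_Sh (w : E (m + 2)) : Ts (Sh w) = w := Ts_shear w
theorem Sh_Ts (w : E (m + 2)) : Sh (Ts w) = w := shear_Ts w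

theorem hasFDerivAt_Sh (w : E (m + 2)) :
    HasFDerivAt (Sh : E (m + 2) → E (m + 2))
      (ContinuousLinearMap.id ℝ (E (m + 2)) + (fderiv ℝ bt w).smulRight (e0 m)) w := by
  have h1 : HasFDerivAt (bt : E (m + 2) → ℝ) (fderiv ℝ bt w) w :=
    (contDiff_bt.differentiable (by simp) w).hasFDerivAt
  have h2 := (hasFDerivAt_id w).fun_add (h1.smul_const (e0 m))
  exact h2

theorem fderiv_bt_e0 (w : E (m + 2)) : fderiv ℝ bt w (e0 m) = 0 := by
  have hd : HasFDerivAt (bt : E (m + 2) → ℝ) (fderiv ℝ bt w) (w + (0 : ℝ) • e0 m) := by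
    simpa using (contDiff_bt.differentiable (by simp) w).hasFDerivAt
  have hc : HasDerivAt (fun s : ℝ => w + s • e0 m) (e0 m) 0 := by
    simpa using ((hasDerivAt_id (0 : ℝ)).smul_const (e0 m)).const_add w
  have h1 := hd.comp_hasDerivAt (0 : ℝ) hc
  have h2 : HasDerivAt (bt ∘ fun s : ℝ => w + s • e0 m) 0 0 := by
    have : (bt ∘ fun s : ℝ => w + s • e0 m) = fun _ => bt w := by
      funext s
      simp [bt_add_smul]
    rw [this]
    exact hasDerivAt_const _ _
  exact h1.unique h2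

theorem volume_Sh_image (B : Set (E (m + 2))) (hB : MeasurableSet B) :
    volume (Sh '' B) = volume B := by
  have h := lintegral_abs_det_fderiv_eq_addHaar_image (volume : Measure (E (m + 2))) hB
    (f := Sh) (f' := fun w => ContinuousLinearMap.id ℝ (E (m + 2)) +
      (fderiv ℝ bt w).smulRight (e0 m)) (fun w _ => (hasFDerivAt_Sh w).hasFDerivWithinAt)
    ((Function.LeftInverse.injective Ts_Sh).injOn)
  rw [← h]
  have hdet : ∀ w : E (m + 2), (ContinuousLinearMap.id ℝ (E (m + 2)) +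
      (fderiv ℝ bt w).smulRight (e0 m)).det = 1 := by
    intro w
    have h1 : ((ContinuousLinearMap.id ℝ (E (m + 2)) +
      (fderiv ℝ bt w).smulRight (e0 m) : E (m + 2) →L[ℝ] E (m + 2)) : E (m + 2) →ₗ[ℝ] E (m + 2)) =
        LinearMap.transvection (fderiv ℝ bt w : E (m + 2) →ₗ[ℝ] ℝ) (e0 m) := by
      ext x
      simp [LinearMap.transvection.apply]
    rw [ContinuousLinearMap.det, h1, LinearMap.transvection.det]
    simp [fderiv_bt_e0]
  simp only [hdet]
  simp

theorem volume_affine_Ts (L : E (m + 2) →ₗ[ℝ] E (m + 2)) (hL : LinearMap.det L ≠ 0)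
    (z0 : E (m + 2)) (B : Set (E (m + 2))) (hB : MeasurableSet B) :
    volume {y | Ts (z0 + L y) ∈ B} = ENNReal.ofReal |(LinearMap.det L)⁻¹| * volume B := by
  have h1 : {y | Ts (z0 + L y) ∈ B} = L ⁻¹' ((fun z => z0 + z) ⁻¹' (Sh '' B)) := by
    ext y
    simp only [mem_ofPred_eq, mem_preimage]
    constructor
    · intro h
      exact ⟨_, h, Sh_Ts _⟩
    · rintro ⟨w, hw, h⟩
      rw [← h, Ts_Sh]
      exact hw
  rw [h1, Measure.addHaar_preimage_linearMap _ hL, measure_preimage_add, volume_Sh_image B hB]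

/-- the ellipsoid -/
def Ell (q : ℝ) (w0 : E (m + 2)) (s : ℝ) : Set (E (m + 2)) := {w | Qf q (w - w0) < s}

theorem isBounded_Ell {q : ℝ} (hq : q < 1) (w0 : E (m + 2)) (s : ℝ) :
    Bornology.IsBounded (Ell q w0 s) := by
  have hc : 0 < min (1 - q) 1 := lt_min (by linarith) one_pos
  rw [isBounded_iff_forall_norm_le]
  refine ⟨√(|s| / min (1 - q) 1) + ‖w0‖, fun w hw => ?_⟩
  have h1 : min (1 - q) 1 * ‖w - w0‖ ^ 2 ≤ |s| :=
    (Qf_lower q (w - w0)).trans (le_of_lt (lt_of_lt_of_le hw (le_abs_self s)))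
  have h2 : ‖w - w0‖ ^ 2 ≤ |s| / min (1 - q) 1 := by
    rw [le_div_iff₀ hc]; linarith
  have h3 : ‖w - w0‖ ≤ √(|s| / min (1 - q) 1) := Real.le_sqrt_of_sq_le h2
  have h4 : ‖w‖ ≤ ‖w - w0‖ + ‖w0‖ := by
    have := norm_add_le (w - w0) w0
    simpa using this
  linarith

theorem isOpen_Ell (q : ℝ) (w0 : E (m + 2)) (s : ℝ) : IsOpen (Ell q w0 s) :=
  isOpen_lt ((contDiff_Qf q).continuous.comp (continuous_id.sub continuous_const))
    continuous_const

theorem volume_Ell {q : ℝ} (w0 : E (m + 2)) {s : ℝ} (hs : 0 < s) :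
    volume (Ell q w0 s) = ENNReal.ofReal (√s ^ (m + 2)) * volume (Ell q (0 : E (m + 2)) 1) := by
  have h1 : Ell q w0 s = (fun w => w + -w0) ⁻¹' (√s • Ell q (0 : E (m + 2)) 1) := by
    ext w
    have hs' : √s ≠ 0 := (Real.sqrt_pos.mpr hs).ne'
    simp only [Ell, mem_ofPred_eq, mem_preimage, mem_smul_set_iff_inv_smul_mem₀ hs', sub_zero,
      Qf_smul, inv_pow, Real.sq_sqrt hs.le]
    rw [← sub_eq_add_neg, inv_mul_lt_iff₀ hs, mul_one]
  rw [h1, measure_preimage_add_right, Measure.addHaar_smul]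
  simp [finrank_euclideanSpace, abs_of_nonneg (Real.sqrt_nonneg s)]

/-- Coordinates in the hyperplane. -/
noncomputable def Lm (ι : E (m + 2) →ₗᵢ[ℝ] E (m + 3)) : E (m + 2) →ₗ[ℝ] E (m + 2) :=
  pm ∘ₗ ι.toLinearMap

theorem det_Lm (w0 : E (m + 2)) (ι : E (m + 2) →ₗᵢ[ℝ] E (m + 3))
    (hι : ∀ y, ⟪ι y, un w0⟫ = 0) : LinearMap.det (Lm ι) ≠ 0 := by
  have hinj : Function.Injective (Lm ι) := by
    rw [injective_iff_map_eq_zero]
    intro y hy
    have h1 : pm (ι y) = 0 := hy
    have h2 := hι y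
    rw [un, inner_smul_right, inner_expand, h1, inner_zero_left, nv_zero, add_zero, mul_one] at h2
    have h3 : ‖nv w0‖⁻¹ ≠ 0 := inv_ne_zero (norm_ne_zero_iff.mpr (nv_ne_zero w0))
    have h4 : ι y 0 = 0 := (mul_eq_zero.mp h2).resolve_left h3
    have h5 : ι y = 0 := by
      rw [decomp (ι y), h1, h4]
      simp
    exact (map_eq_zero_iff ι ι.injective).mp h5
  have := LinearMap.bot_lt_ker_of_det_eq_zero (f := Lm ι)
  intro h0
  have h6 := this h0
  rw [LinearMap.ker_eq_bot.mpr hinj] at h6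
  exact lt_irrefl _ h6

theorem section_eq (w0 : E (m + 2)) (hw0 : w0 0 < 1 / 2) (ι : E (m + 2) →ₗᵢ[ℝ] E (m + 3))
    (hι : ∀ y, ⟪ι y, un w0⟫ = 0) (r : ℝ) (hr : 0 < r) :
    ∀ᶠ t in 𝓝[>] (0 : ℝ), planeSection (Mset m) (X w0) (un w0) ι r t =
      {y | Qf (2 * w0 0) (Ts (pm (X w0 + t • un w0) + Lm ι y) - w0) = t * ‖nv w0‖} := by
  have hN : 0 < ‖nv w0‖ := norm_pos_iff.mpr (nv_ne_zero w0)
  set c := min (1 - 2 * w0 0) 1 with hcdef
  have hc : 0 < c := lt_min (by linarith) one_pos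
  -- a radius on which everything is fine
  have hopen : {w : E (m + 2) | w 0 < 1 / 2} ∩ X ⁻¹' Metric.ball (X w0) r ∈ 𝓝 w0 := by
    apply Filter.inter_mem
    · exact (isOpen_lt (contDiff_coord 0).continuous continuous_const).mem_nhds hw0
    · exact contDiff_X.continuous.continuousAt.preimage_mem_nhds (Metric.ball_mem_nhds _ hr)
  obtain ⟨δ, hδ, hball⟩ := Metric.mem_nhds_iff.mp hopen
  have hev : ∀ᶠ t in 𝓝[>] (0 : ℝ), t * ‖nv w0‖ < c * δ ^ 2 := by
    have h1 : Filter.Tendsto (fun t : ℝ => t * ‖nv w0‖) (𝓝[>] (0 : ℝ)) (𝓝 (0 * ‖nv w0‖)) :=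
      ((continuous_id.mul continuous_const).tendsto 0).mono_left nhdsWithin_le_nhds
    rw [zero_mul] at h1
    exact h1.eventually_lt_const (by positivity)
  filter_upwards [hev] with t ht
  -- the height identity
  have hheight : ∀ y : E (m + 2), ⟪X w0 + t • un w0 + ι y - X w0, nv w0⟫ = t * ‖nv w0‖ := by
    intro y
    have h1 : X w0 + t • un w0 + ι y - X w0 = t • un w0 + ι y := by abel
    have h2 : ⟪ι y, nv w0⟫ = 0 := by
      have := hι y
      rw [un, inner_smul_right] at this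
      exact (mul_eq_zero.mp this).resolve_left (inv_ne_zero hN.ne')
    rw [h1, inner_add_left, h2, add_zero, inner_smul_left, un, inner_smul_left,
      real_inner_self_eq_norm_sq]
    simp only [conj_trivial]
    field_simp
  have hpt : ∀ y : E (m + 2), pm (X w0 + t • un w0 + ι y) = pm (X w0 + t • un w0) + Lm ι y := by
    intro y
    rw [map_add]
    rfl
  ext y
  simp only [planeSection, mem_ofPred_eq, mem_inter_iff]
  rw [← hpt y]
  set x := X w0 + t • un w0 + ι y with hx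
  constructor
  · rintro ⟨⟨w, hw, hwx⟩, -⟩
    rw [← hwx, Ts_pm_X, ← inner_X_nv, hwx]
    exact hheight y
  · intro h
    -- `x` lies on the surface
    have h1 : x = X (Ts (pm x)) + (x 0 - ‖Ts (pm x)‖ ^ 2) • ez m := eq_X_add x
    have h2 : ⟪x - X w0, nv w0⟫ =
        Qf (2 * w0 0) (Ts (pm x) - w0) + (x 0 - ‖Ts (pm x)‖ ^ 2) := by
      have h3 : x - X w0 = (X (Ts (pm x)) - X w0) + (x 0 - ‖Ts (pm x)‖ ^ 2) • ez m := by
        conv_lhs => rw [h1]
        abel
      rw [h3, inner_add_left, inner_X_nv, inner_smul_left]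
      have h4 : ⟪ez m, nv w0⟫ = 1 := by
        rw [inner_expand]
        simp
      rw [h4]
      simp
    rw [hheight y, h] at h2
    have h5 : x 0 - ‖Ts (pm x)‖ ^ 2 = 0 := by linarith
    have h6 : X (Ts (pm x)) = x := by
      conv_rhs => rw [h1, h5]
      simp
    have h7 : ‖Ts (pm x) - w0‖ < δ := by
      have h8 := Qf_lower (2 * w0 0) (Ts (pm x) - w0)
      rw [h] at h8
      have h9 : c * ‖Ts (pm x) - w0‖ ^ 2 < c * δ ^ 2 := lt_of_le_of_lt h8 ht
      have h10 : ‖Ts (pm x) - w0‖ ^ 2 < δ ^ 2 := lt_of_mul_lt_mul_left h9 hc.le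
      exact lt_of_pow_lt_pow_left₀ 2 hδ.le h10
    have h8 := hball (mem_ball_iff_norm.mpr h7)
    refine ⟨⟨Ts (pm x), h8.1, h6⟩, ?_⟩
    have := h8.2
    rwa [mem_preimage, h6] at this

/-- the coordinate change as a homeomorphism -/
noncomputable def homeoTs (z0 : E (m + 2)) (L : E (m + 2) →ₗ[ℝ] E (m + 2))
    (hL : LinearMap.det L ≠ 0) : E (m + 2) ≃ₜ E (m + 2) :=
  let Le : E (m + 2) ≃ₗ[ℝ] E (m + 2) := LinearMap.equivOfDetNeZero L hL
  { toFun := fun y => Ts (z0 + L y)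
    invFun := fun w => Le.symm (Sh w - z0)
    left_inv := by
      intro y
      simp only [Sh_Ts]
      have : z0 + L y - z0 = Le y := by
        simp [Le]
      rw [this]
      exact Le.symm_apply_apply y
    right_inv := by
      intro w
      have : L (Le.symm (Sh w - z0)) = Sh w - z0 := Le.apply_symm_apply (Sh w - z0)
      simp only [this]
      rw [add_sub_cancel, Ts_Sh]
    continuous_toFun := by
      have h1 : Continuous L := LinearMap.continuous_of_finiteDimensional L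
      exact contDiff_Ts.continuous.comp (continuous_const.add h1)
    continuous_invFun := by
      have h1 : Continuous Le.symm :=
        LinearMap.continuous_of_finiteDimensional Le.symm.toLinearMap
      have h2 : Continuous (Sh : E (m + 2) → E (m + 2)) :=
        continuous_id.add (contDiff_bt.continuous.smul continuous_const)
      exact h1.comp (h2.sub continuous_const) }

theorem enclosed_section {q : ℝ} (hq : q < 1) (w0 z0 : E (m + 2))
    (L : E (m + 2) →ₗ[ℝ] E (m + 2)) (hL : LinearMap.det L ≠ 0) {s : ℝ} (hs : 0 < s) :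
    enclosed {y | Qf q (Ts (z0 + L y) - w0) = s} = {y | Ts (z0 + L y) ∈ Ell q w0 s} := by
  refine enclosed_levelSet (homeoTs z0 L hL) (fun w => Qf q (w - w0))
    ((contDiff_Qf q).continuous.comp (continuous_id.sub continuous_const)) s
    (isBounded_Ell hq w0 s) w0 ?_
  intro w hw
  constructor
  · rintro rfl
    simp [Qf_zero] at hw
    linarith
  · intro l hl
    have h1 : w0 + l • (w - w0) - w0 = l • (w - w0) := by abel
    rw [h1, Qf_smul]
    have h2 : 1 ≤ l ^ 2 := by nlinarith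
    nlinarith

theorem lpi_Mset (k : ℕ) : LocallyPolynomiallyIntegrable (k := 2 * k + 2) (Mset (2 * k)) := by
  rintro a ⟨w0, hw0, rfl⟩ v hv ι hι
  have hv' := normal_unique w0 hw0 v hv
  subst hv'
  have hw0' : w0 0 < 1 / 2 := hw0
  have hq : 2 * w0 0 < 1 := by linarith
  have hN : 0 < ‖nv w0‖ := norm_pos_iff.mpr (nv_ne_zero w0)
  have hdet := det_Lm w0 ι hι
  set V := (volume (Ell (2 * w0 0) (0 : E (2 * k + 2)) 1)).toReal with hV
  have hVfin : volume (Ell (2 * w0 0) (0 : E (2 * k + 2)) 1) ≠ ⊤ :=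
    (isBounded_Ell hq 0 1).measure_lt_top.ne
  set C := |(LinearMap.det (Lm ι))⁻¹| * (‖nv w0‖ ^ (k + 1) * V) with hC
  refine ⟨Polynomial.C C * Polynomial.X ^ (k + 1), ?_⟩
  filter_upwards [self_mem_nhdsWithin] with r hr
  filter_upwards [section_eq w0 hw0 ι hι r hr, self_mem_nhdsWithin] with t ht ht0
  have ht0' : 0 < t := ht0
  have hs : 0 < t * ‖nv w0‖ := by positivity
  rw [ht, enclosed_section hq w0 _ (Lm ι) hdet hs,
    volume_affine_Ts (Lm ι) hdet _ _ (isOpen_Ell _ _ _).measurableSet, volume_Ell w0 hs]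
  have hsq : √(t * ‖nv w0‖) ^ (2 * k + 2) = (t * ‖nv w0‖) ^ (k + 1) := by
    have : 2 * k + 2 = 2 * (k + 1) := by ring
    rw [this, pow_mul, Real.sq_sqrt hs.le]
  rw [hsq]
  constructor
  · exact ENNReal.mul_ne_top ENNReal.ofReal_ne_top (ENNReal.mul_ne_top ENNReal.ofReal_ne_top hVfin)
  · rw [ENNReal.toReal_mul, ENNReal.toReal_mul, ENNReal.toReal_ofReal (abs_nonneg _),
      ENNReal.toReal_ofReal (by positivity)]
    simp only [Polynomial.eval_mul, Polynomial.eval_C, Polynomial.eval_pow, Polynomial.eval_X]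
    rw [hC, mul_pow, hV]
    ring

end Pool.Agent.Lib.MP_bfe3ea_gt
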